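import Mathlib
import Pool.Agent.Work.MP_ab22a4_ag.Defs
import Pool.Agent.Work.MP_ab22a4_ag.Dens

/-!
Morphisms from the projective line to the weighted projective space `P(1,1,1,2)`, a terminal
factorial-up-to-torsion Fano threefold: there are many components of every large degree which are
not dominated through any generically finite morphism that is not birational.
-/

namespace Pool.Agent.Results.MP_ab22a4_ag.ManyManinComponents

open Pool.Agent.Work.MP_ab22a4_ag

theorem result (k : Type*) [Field k] [IsAlgClosed k] [CharZero k] (d : ℕ) :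
    (irreducibleComponents (Mor d (W k))).ncard = d / 2 + 1 ∧
      d / 2 ≤ {M ∈ irreducibleComponents (Mor d (W k)) | ¬ Dominated M}.ncard := by
  refine ⟨ncard_components k d, ?_⟩
  have hfin : (irreducibleComponents (Mor d (W k))).Finite := by
    rw [irreducibleComponents_eq]
    exact (Set.finite_Iic _).image _
  have hsub : (fun e => Wset k d e) '' (Set.Icc 1 (d / 2)) ⊆
      {M ∈ irreducibleComponents (Mor d (W k)) | ¬ Dominated M} := by
    rintro _ ⟨e, ⟨he1, he2⟩, rfl⟩
    refine ⟨?_, not_dominated he1 (by omega)⟩
    rw [irreducibleComponents_eq]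
    exact ⟨e, he2, rfl⟩
  have hinj : Set.InjOn (fun e => Wset k d e) (Set.Icc 1 (d / 2)) := by
    rintro e ⟨_, he⟩ e' ⟨_, he'⟩ h
    exact (Wset_subset_iff (by omega) (by omega)).1 (Set.Subset.antisymm_iff.1 h).1
  have hcard : ((fun e => Wset k d e) '' (Set.Icc 1 (d / 2))).ncard = d / 2 := by
    rw [hinj.ncard_image, Set.ncard_eq_toFinset_card']
    simp
  calc d / 2 = ((fun e => Wset k d e) '' (Set.Icc 1 (d / 2))).ncard := hcard.symm
    _ ≤ _ := Set.ncard_le_ncard hsub (hfin.subset (fun M hM => hM.1))

end Pool.Agent.Results.MP_ab22a4_ag.ManyManinComponents
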